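import Pool.Agent.H934R3.NP.Stmts

set_option autoImplicit false

/-!
# Task D6 of the NP project (helper934): the energy kernel
-/

open MeasureTheory Set Filter Topology
open scoped ENNReal NNReal

namespace Pool.Agent.H266R3.NP

open Pool.Agent.H934R3.NP

theorem contDiff_Ge {δ : ℝ} (hδ : 0 < δ) (x : E) : ContDiff ℝ 1 (fun z : E => Ge δ (z - x)) := by
  unfold Ge
  have h1 : ContDiff ℝ 1 (fun z : E => ‖z - x‖ ^ 2 + δ ^ 2) :=
    ((contDiff_id.sub contDiff_const).norm_sq ℝ).add contDiff_const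
  have h2 : ContDiff ℝ 1 (fun z : E => Real.sqrt (‖z - x‖ ^ 2 + δ ^ 2)) :=
    h1.sqrt (fun z => (by positivity))
  refine contDiff_const.div (contDiff_const.mul h2) (fun z => ?_)
  positivity

theorem fderiv_Ge {δ : ℝ} (hδ : 0 < δ) (x z v : E) :
    fderiv ℝ (fun z : E => Ge δ (z - x)) z v = inner ℝ (dGe δ (z - x)) v := by
  have hpos : 0 < ‖z - x‖ ^ 2 + δ ^ 2 := by positivity
  have h1 : HasFDerivAt (fun z : E => ‖z - x‖ ^ 2 + δ ^ 2)
      (2 • (innerSL ℝ (z - x)).comp (ContinuousLinearMap.id ℝ E)) z :=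
    (((hasFDerivAt_id z).sub_const x).norm_sq).add_const _
  have h2 : HasDerivAt (fun t : ℝ => 1 / (4 * Real.pi * Real.sqrt t))
      (-(4 * Real.pi * (1 / (2 * Real.sqrt (‖z - x‖ ^ 2 + δ ^ 2)))) /
        (4 * Real.pi * Real.sqrt (‖z - x‖ ^ 2 + δ ^ 2)) ^ 2) (‖z - x‖ ^ 2 + δ ^ 2) := by
    have := ((Real.hasDerivAt_sqrt hpos.ne').const_mul (4 * Real.pi)).inv (by positivity)
    have he : (fun t : ℝ => 1 / (4 * Real.pi * Real.sqrt t)) =
        (fun t : ℝ => 4 * Real.pi * Real.sqrt t)⁻¹ := by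
      funext t; simp only [one_div, Pi.inv_apply]
    rw [he]; exact this
  have h3 := h2.comp_hasFDerivAt z h1
  have h4 : HasFDerivAt (fun z : E => Ge δ (z - x)) _ z := h3
  rw [h4.fderiv]
  simp only [dGe, inner_smul_left, ContinuousLinearMap.smul_apply, ContinuousLinearMap.comp_apply,
    ContinuousLinearMap.id_apply, innerSL_apply_apply, smul_eq_mul, nsmul_eq_mul]
  have hs : Real.sqrt (‖z - x‖ ^ 2 + δ ^ 2) ≠ 0 := (Real.sqrt_pos.2 hpos).ne'
  have hpi : Real.pi ≠ 0 := Real.pi_ne_zero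
  simp only [conj_trivial]
  push_cast
  field_simp

theorem norm_dGe_le (δ : ℝ) (w : E) : ‖dGe δ w‖ ≤ 1 / (4 * Real.pi * ‖w‖ ^ 2) := by
  unfold dGe
  rcases eq_or_ne w 0 with rfl | hw
  · simp
  have hw' : 0 < ‖w‖ := norm_pos_iff.2 hw
  have hs : ‖w‖ ≤ Real.sqrt (‖w‖ ^ 2 + δ ^ 2) := by
    apply Real.le_sqrt_of_sq_le; nlinarith [sq_nonneg δ]
  have hs0 : 0 < Real.sqrt (‖w‖ ^ 2 + δ ^ 2) := lt_of_lt_of_le hw' hs
  rw [norm_smul, norm_neg, Real.norm_of_nonneg (by positivity)]
  have h3 : ‖w‖ ^ 3 ≤ Real.sqrt (‖w‖ ^ 2 + δ ^ 2) ^ 3 := pow_le_pow_left₀ hw'.le hs 3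
  have h4 : 1 / (4 * Real.pi * Real.sqrt (‖w‖ ^ 2 + δ ^ 2) ^ 3) ≤ 1 / (4 * Real.pi * ‖w‖ ^ 3) := by
    apply one_div_le_one_div_of_le (by positivity)
    gcongr
  calc _ ≤ 1 / (4 * Real.pi * ‖w‖ ^ 3) * ‖w‖ := by gcongr
    _ = _ := by field_simp

theorem norm_dG_le (w : E) : ‖dG w‖ ≤ 1 / (4 * Real.pi * ‖w‖ ^ 2) := by
  have h := norm_dGe_le 0 w
  have : dGe 0 w = dG w := by
    unfold dGe dG
    rw [show ‖w‖ ^ 2 + (0:ℝ) ^ 2 = ‖w‖ ^ 2 by ring, Real.sqrt_sq (norm_nonneg _)]
  rwa [this] at h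

theorem dGe_zero (w : E) : dGe 0 w = dG w := by
  unfold dGe dG
  rw [show ‖w‖ ^ 2 + (0:ℝ) ^ 2 = ‖w‖ ^ 2 by ring, Real.sqrt_sq (norm_nonneg _)]

theorem Ge_zero (w : E) : Ge 0 w = G w := by
  unfold Ge G
  rw [show ‖w‖ ^ 2 + (0:ℝ) ^ 2 = ‖w‖ ^ 2 by ring, Real.sqrt_sq (norm_nonneg _)]

theorem tendsto_Ge {w : E} (hw : w ≠ 0) : Tendsto (fun δ : ℝ => Ge δ w) (𝓝[>] 0) (𝓝 (G w)) := by
  rw [← Ge_zero w]
  have hw' : 0 < ‖w‖ := norm_pos_iff.2 hw
  have : ContinuousAt (fun δ : ℝ => Ge δ w) 0 := by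
    unfold Ge
    refine ContinuousAt.div continuousAt_const ?_ ?_
    · exact (by fun_prop : Continuous fun δ : ℝ => 4 * Real.pi * Real.sqrt (‖w‖ ^ 2 + δ ^ 2)).continuousAt
    · positivity
  exact this.tendsto.mono_left nhdsWithin_le_nhds

theorem tendsto_dGe (w : E) : Tendsto (fun δ : ℝ => dGe δ w) (𝓝[>] 0) (𝓝 (dG w)) := by
  rcases eq_or_ne w 0 with rfl | hw
  · simp [dGe, dG]
  rw [← dGe_zero w]
  have hw' : 0 < ‖w‖ := norm_pos_iff.2 hw
  have : ContinuousAt (fun δ : ℝ => dGe δ w) 0 := by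
    unfold dGe
    have h1 : ContinuousAt (fun δ : ℝ => 1 / (4 * Real.pi * Real.sqrt (‖w‖ ^ 2 + δ ^ 2) ^ 3)) 0 := by
      refine ContinuousAt.div continuousAt_const ?_ ?_
      · exact (by fun_prop : Continuous fun δ : ℝ => 4 * Real.pi * Real.sqrt (‖w‖ ^ 2 + δ ^ 2) ^ 3).continuousAt
      · positivity
    exact (h1.neg).smul continuousAt_const
  exact this.tendsto.mono_left nhdsWithin_le_nhds

theorem G_nonneg (w : E) : 0 ≤ G w := by unfold G; positivity

theorem Ge_nonneg (δ : ℝ) (w : E) : 0 ≤ Ge δ w := by unfold Ge; positivity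

theorem Ge_le_G (δ : ℝ) {w : E} (hw : w ≠ 0) : Ge δ w ≤ G w := by
  unfold Ge G
  have hw' : 0 < ‖w‖ := norm_pos_iff.2 hw
  have hs : ‖w‖ ≤ Real.sqrt (‖w‖ ^ 2 + δ ^ 2) := by
    apply Real.le_sqrt_of_sq_le; nlinarith [sq_nonneg δ]
  apply one_div_le_one_div_of_le (by positivity)
  gcongr

theorem G_comm (x y : E) : G (x - y) = G (y - x) := by
  unfold G; rw [norm_sub_rev]

theorem sig_singleton (g : E → ℝ) (x : E) : sig g {x} = 0 := by
  unfold sig
  have : (Measure.hausdorffMeasure 2 : Measure E) {x} = 0 := by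
    have : NullSingletonClass (Measure.hausdorffMeasure 2 : Measure E) :=
      Measure.nullSingletonClass_hausdorff E (by norm_num)
    exact @measure_singleton E _ _ this x
  have h2 : ((Measure.hausdorffMeasure 2 : Measure E).restrict {x | g x = 0}) {x} = 0 :=
    le_antisymm ((Measure.restrict_apply_le _ _).trans this.le) zero_le
  rw [Measure.smul_apply, h2, smul_zero]

theorem ae_mem_Sg (g : E → ℝ) (hg : Surf g) : ∀ᵐ z ∂(sig g), z ∈ Sg g := by
  have hm : MeasurableSet (Sg g) :=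
    (isClosed_eq hg.smooth.continuous continuous_const).measurableSet
  unfold sig
  apply Measure.ae_smul_measure
  exact ae_restrict_mem hm

theorem integrable_inv_norm (g : E → ℝ) (hb : SurfBd g) (x : E) :
    Integrable (fun z : E => 1 / ‖z - x‖) (sig g) := by
  obtain ⟨hfin, C, hC, h1, -⟩ := hb
  have hI : Integrable (fun z : E => ‖x - z‖ ^ (-(3 / 2) : ℝ)) (sig g) := by
    refine ⟨?_, ?_⟩
    · exact ((measurable_const.sub measurable_id).norm.pow_const _).aestronglyMeasurable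
    · rw [hasFiniteIntegral_iff_ofReal (Eventually.of_forall fun z => by positivity)]
      exact (h1 x).trans_lt ENNReal.ofReal_lt_top
  have hI2 : Integrable (fun z : E => 1 + ‖x - z‖ ^ (-(3 / 2) : ℝ)) (sig g) :=
    (integrable_const 1).add hI
  refine hI2.mono' ?_ (Eventually.of_forall fun z => ?_)
  · exact (((measurable_id.sub measurable_const).norm).const_div 1).aestronglyMeasurable
  · rw [Real.norm_of_nonneg (by positivity), norm_sub_rev z x]
    rcases (norm_nonneg (x - z)).eq_or_lt with h0 | h0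
    · rw [← h0]; simp
    rcases le_or_gt 1 ‖x - z‖ with h | h
    · have : 1 / ‖x - z‖ ≤ 1 := by rw [div_le_one h0]; exact h
      have : 0 ≤ ‖x - z‖ ^ (-(3 / 2) : ℝ) := by positivity
      linarith
    · have h2 : 1 / ‖x - z‖ = ‖x - z‖ ^ (-1 : ℝ) := by
        rw [Real.rpow_neg_one, one_div]
      have h3 : ‖x - z‖ ^ (-1 : ℝ) ≤ ‖x - z‖ ^ (-(3 / 2) : ℝ) :=
        Real.rpow_le_rpow_of_exponent_ge h0 h.le (by norm_num)
      linarith

theorem measurable_ks (g : E → ℝ) (hg : Surf g) (y : E) : Measurable (fun z => ks g z y) := by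
  have hgr : Measurable (fun z => gradient g z) := by
    have h1 : Continuous (fun z => fderiv ℝ g z) := hg.smooth.continuous_fderiv (by simp)
    have : Continuous (fun z => gradient g z) := by
      unfold gradient
      exact (LinearIsometryEquiv.continuous _).comp h1
    exact this.measurable
  unfold ks
  have h2 : Measurable (fun z : E => z - y) := measurable_id.sub measurable_const
  have h3 : Measurable (fun z : E => inner ℝ (z - y) (gradient g z)) := h2.inner hgr
  exact (h3.div (hgr.norm.mul (h2.norm.pow_const 3))).const_mul _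

theorem taskD6 : TaskD6 := by
  intro hB4 g hg hb hgreen x hx y hy hxy
  have hxy' : 0 < ‖x - y‖ := norm_pos_iff.2 (sub_ne_zero.2 hxy)
  -- the left side
  have hL : Tendsto (fun δ : ℝ => ∫ z in Om g, inner ℝ (dGe δ (z - x)) (dG (z - y))) (𝓝[>] 0)
      (𝓝 (∫ z in Om g, inner ℝ (dG (z - x)) (dG (z - y)))) := by
    obtain ⟨-, C, hC, hB⟩ := hB4
    have hI : Integrable (fun z : E => 1 / (‖z - x‖ ^ 2 * ‖z - y‖ ^ 2)) := by
      refine ⟨?_, ?_⟩
      · exact (((((measurable_id.sub measurable_const).norm.pow_const 2)).mul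
          ((measurable_id.sub measurable_const).norm.pow_const 2)).const_div 1).aestronglyMeasurable
      · rw [hasFiniteIntegral_iff_ofReal (Eventually.of_forall fun z => by positivity)]
        exact (hB x y hxy).trans_lt ENNReal.ofReal_lt_top
    refine tendsto_integral_filter_of_dominated_convergence
      (fun z => 1 / (4 * Real.pi) ^ 2 * (1 / (‖z - x‖ ^ 2 * ‖z - y‖ ^ 2))) ?_ ?_ ?_ ?_
    · filter_upwards [self_mem_nhdsWithin] with δ hδ
      have hm : Measurable fun z : E => inner ℝ (dGe δ (z - x)) (dG (z - y)) := by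
        unfold dGe dG
        have h1 : Measurable fun z : E => z - x := measurable_id.sub measurable_const
        have h2 : Measurable fun z : E => z - y := measurable_id.sub measurable_const
        have h3 : Measurable fun z : E =>
            -(1 / (4 * Real.pi * Real.sqrt (‖z - x‖ ^ 2 + δ ^ 2) ^ 3)) :=
          ((((((h1.norm.pow_const 2).add_const _).sqrt).pow_const 3).const_mul _).const_div 1).neg
        have h4 : Measurable fun z : E => -(1 / (4 * Real.pi * ‖z - y‖ ^ 3)) :=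
          (((h2.norm.pow_const 3).const_mul _).const_div 1).neg
        exact (h3.smul h1).inner (h4.smul h2)
      exact hm.aestronglyMeasurable
    · filter_upwards [self_mem_nhdsWithin] with δ hδ
      refine Eventually.of_forall fun z => ?_
      refine (norm_inner_le_norm _ _).trans ?_
      calc ‖dGe δ (z - x)‖ * ‖dG (z - y)‖
          ≤ (1 / (4 * Real.pi * ‖z - x‖ ^ 2)) * (1 / (4 * Real.pi * ‖z - y‖ ^ 2)) :=
            mul_le_mul (norm_dGe_le _ _) (norm_dG_le _) (norm_nonneg _) (by positivity)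
        _ = _ := by
            rw [one_div_mul_one_div, one_div_mul_one_div]
            congr 1; ring
    · exact (hI.const_mul _).restrict
    · refine Eventually.of_forall fun z => ?_
      exact (tendsto_dGe (z - x)).inner tendsto_const_nhds
  -- the right side
  have hR1 : Tendsto (fun δ : ℝ => Ge δ (y - x) / 2) (𝓝[>] 0) (𝓝 (G (x - y) / 2)) := by
    rw [G_comm]
    exact (tendsto_Ge (sub_ne_zero.2 hxy.symm)).div_const 2
  have hR2 : Tendsto (fun δ : ℝ => ∫ z, Ge δ (z - x) * ks g z y ∂(sig g)) (𝓝[>] 0)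
      (𝓝 (∫ z, G (x - z) * ks g z y ∂(sig g))) := by
    obtain ⟨hfin, C, hC, -, hks⟩ := id hb
    have hne : ∀ᵐ z ∂(sig g), z ≠ x := by
      rw [ae_iff]; simpa using sig_singleton g x
    refine tendsto_integral_filter_of_dominated_convergence
      (fun z => C / (4 * Real.pi) * (2 / ‖x - y‖) * (1 / ‖z - x‖ + 1 / ‖z - y‖)) ?_ ?_ ?_ ?_
    · refine Eventually.of_forall fun δ => ?_
      have h1 : Measurable fun z : E => z - x := measurable_id.sub measurable_const
      have hm : Measurable fun z : E => Ge δ (z - x) := by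
        unfold Ge
        exact (((h1.norm.pow_const 2).add_const _).sqrt.const_mul _).const_div 1
      exact (hm.mul (measurable_ks g hg y)).aestronglyMeasurable
    · refine Eventually.of_forall fun δ => ?_
      filter_upwards [hne, ae_mem_Sg g hg] with z hzx hz
      rw [norm_mul, Real.norm_of_nonneg (Ge_nonneg _ _), Real.norm_eq_abs]
      have h1 : Ge δ (z - x) ≤ G (z - x) := Ge_le_G δ (sub_ne_zero.2 hzx)
      have h2 := hks z hz y hy
      have hzx' : 0 < ‖z - x‖ := norm_pos_iff.2 (sub_ne_zero.2 hzx)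
      calc Ge δ (z - x) * |ks g z y| ≤ G (z - x) * (C / ‖z - y‖) :=
            mul_le_mul h1 h2 (abs_nonneg _) (G_nonneg _)
        _ ≤ _ := by
            unfold G
            rcases eq_or_ne z y with rfl | hzy
            · simp; positivity
            have hzy' : 0 < ‖z - y‖ := norm_pos_iff.2 (sub_ne_zero.2 hzy)
            have htri : ‖x - y‖ ≤ ‖z - x‖ + ‖z - y‖ := by
              rw [norm_sub_rev z x]; exact norm_sub_le_norm_sub_add_norm_sub x z y
            have : 1 / (4 * Real.pi * ‖z - x‖) * (C / ‖z - y‖) =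
                C / (4 * Real.pi) * (1 / (‖z - x‖ * ‖z - y‖)) := by field_simp
            rw [this, mul_assoc]
            apply mul_le_mul_of_nonneg_left _ (by positivity)
            have h5 : 2 / ‖x - y‖ * (1 / ‖z - x‖ + 1 / ‖z - y‖) =
                (2 * (‖z - x‖ + ‖z - y‖) / ‖x - y‖) * (1 / (‖z - x‖ * ‖z - y‖)) := by
              field_simp; ring
            rw [h5]
            have h6 : 1 ≤ 2 * (‖z - x‖ + ‖z - y‖) / ‖x - y‖ := by
              rw [le_div_iff₀ hxy']; linarith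
            exact le_mul_of_one_le_left (by positivity) h6
    · exact ((integrable_inv_norm g hb x).add (integrable_inv_norm g hb y)).const_mul _
    · filter_upwards [hne] with z hzx
      rw [G_comm x z]
      exact (tendsto_Ge (sub_ne_zero.2 hzx)).mul_const _
  have hEq : ∀ᶠ δ : ℝ in 𝓝[>] 0, ∫ z in Om g, inner ℝ (dGe δ (z - x)) (dG (z - y)) =
      Ge δ (y - x) / 2 - ∫ z, Ge δ (z - x) * ks g z y ∂(sig g) := by
    filter_upwards [self_mem_nhdsWithin] with δ hδ
    have := hgreen (fun z => Ge δ (z - x)) (contDiff_Ge hδ x) y hy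
    rw [← this]
    refine integral_congr_ae (Eventually.of_forall fun z => ?_)
    exact (fderiv_Ge hδ x z _).symm
  exact tendsto_nhds_unique (hL.congr' hEq) (hR1.sub hR2)

end Pool.Agent.H266R3.NP
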